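import Mathlib
import Pool.Agent.H.MP_d907e7_lc.A

set_option autoImplicit false

namespace Pool.Agent.Results.MP_d907e7_lc.Q1

open Cardinal

theorem result : ∃ X : Set ℝ, (∀ U, IsOpen U → U.Nonempty → #↥(X ∩ U) = ℵ₁) ∧
    ∀ f : X → X, f.Bijective → (∀ x y, dist (f x) (f y) ≤ dist x y) →
      ∀ x y, dist (f x) (f y) = dist x y :=
  let ⟨X, h, g⟩ := Pool.Agent.H.MP_d907e7_lc.main
  ⟨X, h, fun f b n x y => by rw [g f b.1 n x, g f b.1 n y]⟩

end Pool.Agent.Results.MP_d907e7_lc.Q1
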