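import Mathlib
import Pool.Agent.H.MP_d907e7_lc.B
import Pool.Agent.H.MP_fc2771_gt.Main

set_option autoImplicit false

namespace Pool.Agent.Results.MP_d907e7_lc.Q2

open Cardinal Set Pool.Agent.H.MP_d907e7_lc

theorem result (h : PFA) (G : AddSubgroup ℝ)
    (hG : ∀ U : Set ℝ, IsOpen U → U.Nonempty → #↥((G : Set ℝ) ∩ U) = ℵ₁) :
    ∃ f : G → G, f.Bijective ∧ (∀ x y, dist (f x) (f y) ≤ dist x y) ∧
      ¬ ∀ x y, dist (f x) (f y) = dist x y :=
  Pool.Agent.H.MP_fc2771_gt.main (dense_iff_inter_open.2 fun U u n => inter_comm _ _ ▸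
    nonempty_coe_sort.1 (mk_ne_zero_iff.1 (hG U u n ▸ (aleph_pos 1).ne')))
    (nul h _ (by simpa using (hG _ isOpen_univ univ_nonempty).le))

end Pool.Agent.Results.MP_d907e7_lc.Q2
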